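import Pool.Agent.H84.Stk

namespace Pool.Agent.Results.MP_395df9_lc.Yes

open Pool.Agent.H84.StkDefs

theorem result (hs : Stick) (hc : Cardinal.aleph 1 < Cardinal.continuum.{0}) :
    ¬ ∃ U : Sym2 W1 → ℕ, WeaklyUniv U :=
  fun ⟨U, hU⟩ => Pool.Agent.H84.Stk.main hs hc U hU

end Pool.Agent.Results.MP_395df9_lc.Yes
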